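import Pool.Agent.H252.MD.Iface

/-! Project MD (helper252): piece BLK (helper980). -/

set_option autoImplicit false

namespace Pool.Agent.H980.MD

open Filter Topology Matrix
open Pool.Agent.H107ZS Pool.Agent.H327R4.Pure Pool.Agent.H252.MD
open scoped CStarAlgebra ComplexOrder

theorem psd_blocks {m n : Type} [Fintype m] [Fintype n] (A : Matrix m m ℂ) (D : Matrix n n ℂ)
    (hA : A.PosSemidef) (hD : D.PosSemidef) : (fromBlocks A 0 0 D).PosSemidef := by
  rw [posSemidef_iff_dotProduct_mulVec] at hA hD ⊢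
  refine ⟨Matrix.IsHermitian.fromBlocks hA.1 (by simp) hD.1, fun x => ?_⟩
  have h1 := hA.2 (x ∘ Sum.inl)
  have h2 := hD.2 (x ∘ Sum.inr)
  have h3 : star x ⬝ᵥ (fromBlocks A 0 0 D *ᵥ x) =
      star (x ∘ Sum.inl) ⬝ᵥ (A *ᵥ (x ∘ Sum.inl)) + star (x ∘ Sum.inr) ⬝ᵥ (D *ᵥ (x ∘ Sum.inr)) := by
    rw [fromBlocks_mulVec]
    simp [dotProduct, Fintype.sum_sum_type]
  rw [h3]
  exact add_nonneg h1 h2

theorem zt_add (a b : ℤ) : zt (a + b) = zt a * zt b := rfl

theorem zt_smul_smul {X : Type} [MulAction Zm X] (a b : ℤ) (x : X) :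
    zt a • zt b • x = zt (a + b) • x := by
  rw [zt_add, mul_smul]

theorem zt_zero_smul {X : Type} [MulAction Zm X] (x : X) : zt 0 • x = x := one_smul Zm x

theorem s_BLK : S_BLK := by
  intro hSPL X _ _ _ _ B _ n ι u e E hM φ N Lmax hMk T hsp hblk
  obtain ⟨-, -, -, -, -, -, hshift, -⟩ := hSPL X B n ι u e E hM
  -- windows between points with `φ = 1`
  have main : ∀ Λ : ℕ, ∀ x, φ x = 1 → φ (zt (Λ : ℤ) • x) = 1 → (W u E T Λ x).PosSemidef := by
    intro Λ
    induction Λ using Nat.strong_induction_on with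
    | _ Λ ih =>
      intro x hx hx'
      rcases Nat.eq_zero_or_pos Λ with h0 | h0
      · subst h0
        have : W u E T 0 x = 0 := by
          ext p q
          exact p.2.elim0
        rw [this]
        exact PosSemidef.zero
      by_cases hL : Λ ≤ Lmax
      · exact hblk Λ h0 hL x hx hx'
      push Not at hL
      obtain ⟨i, hi1, hi2, hi3⟩ := hMk.ret x
      have hiΛ : i < Λ := by omega
      have hA := ih i hiΛ x hx hi3
      have hD := ih (Λ - i) (by omega) (zt (i : ℤ) • x) hi3 (by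
        rw [zt_smul_smul]
        have : ((Λ - i : ℕ) : ℤ) + (i : ℤ) = (Λ : ℤ) := by omega
        rw [this]
        exact hx')
      have hsub := (psd_blocks _ _ hA hD).submatrix
        (fun p : Fin n × Fin Λ => if h : (p.2 : ℕ) < i then
          (Sum.inl (p.1, ⟨p.2, h⟩) : (Fin n × Fin i) ⊕ (Fin n × Fin (Λ - i)))
          else Sum.inr (p.1, ⟨(p.2 : ℕ) - i, by have := p.2.2; omega⟩))
      convert hsub using 1
      ext p q
      simp only [submatrix_apply]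
      have hspi := hsp _ hi3
      by_cases hp : (p.2 : ℕ) < i <;> by_cases hq : (q.2 : ℕ) < i
      · rw [dif_pos hp, dif_pos hq, fromBlocks_apply₁₁]
        rfl
      · rw [dif_pos hp, dif_neg hq, fromBlocks_apply₁₂]
        have h1 := (hspi ((q.2 : ℕ) - i : ℤ) ((p.2 : ℕ) - i : ℤ) (by omega) (by omega) p.1 q.1).2
        rw [← hshift] at h1
        have e1 : (i : ℤ) + ((p.2 : ℕ) - i : ℤ) = ((p.2 : ℕ) : ℤ) := by ring
        have e2 : (i : ℤ) + ((q.2 : ℕ) - i : ℤ) = ((q.2 : ℕ) : ℤ) := by ring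
        rw [e1, e2] at h1
        exact h1
      · rw [dif_neg hp, dif_pos hq, fromBlocks_apply₂₁]
        have h1 := (hspi ((p.2 : ℕ) - i : ℤ) ((q.2 : ℕ) - i : ℤ) (by omega) (by omega) p.1 q.1).1
        rw [← hshift] at h1
        have e1 : (i : ℤ) + ((p.2 : ℕ) - i : ℤ) = ((p.2 : ℕ) : ℤ) := by ring
        have e2 : (i : ℤ) + ((q.2 : ℕ) - i : ℤ) = ((q.2 : ℕ) : ℤ) := by ring
        rw [e1, e2] at h1
        exact h1
      · rw [dif_neg hp, dif_neg hq, fromBlocks_apply₂₂]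
        unfold W
        rw [← hshift]
        have e1 : (i : ℤ) + (((p.2 : ℕ) - i : ℕ) : ℤ) = ((p.2 : ℕ) : ℤ) := by omega
        have e2 : (i : ℤ) + (((q.2 : ℕ) - i : ℕ) : ℤ) = ((q.2 : ℕ) : ℤ) := by omega
        simp only [e1, e2]
  -- arbitrary windows
  intro Λ x
  obtain ⟨i, hi1, hi2, hi3⟩ := hMk.ret (zt (-(Lmax : ℤ)) • x)
  obtain ⟨j, hj1, hj2, hj3⟩ := hMk.ret (zt (Λ : ℤ) • x)
  rw [zt_smul_smul] at hi3 hj3
  have hbig := main (Λ + j + Lmax - i) (zt ((i : ℤ) + -(Lmax : ℤ)) • x) hi3 (by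
    rw [zt_smul_smul]
    have : ((Λ + j + Lmax - i : ℕ) : ℤ) + ((i : ℤ) + -(Lmax : ℤ)) = (j : ℤ) + (Λ : ℤ) := by omega
    rw [this]
    exact hj3)
  have hsub := hbig.submatrix (fun p : Fin n × Fin Λ =>
    (p.1, (⟨(p.2 : ℕ) + Lmax - i, by have := p.2.2; omega⟩ : Fin (Λ + j + Lmax - i))))
  convert hsub using 1
  ext p q
  simp only [submatrix_apply]
  unfold W
  simp only
  rw [← hshift]
  have e1 : ((i : ℤ) + -(Lmax : ℤ)) + (((p.2 : ℕ) + Lmax - i : ℕ) : ℤ) = ((p.2 : ℕ) : ℤ) := by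
    omega
  have e2 : ((i : ℤ) + -(Lmax : ℤ)) + (((q.2 : ℕ) + Lmax - i : ℕ) : ℤ) = ((q.2 : ℕ) : ℤ) := by
    omega
  rw [e1, e2]

end Pool.Agent.H980.MD
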