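import Pool.Agent.H252.MD.Iface

/-! Project MD (helper252): piece PPW (helper980). -/

set_option autoImplicit false

namespace Pool.Agent.H980.MD

open Filter Topology Matrix
open Pool.Agent.H107ZS Pool.Agent.H327R4.Pure Pool.Agent.H252.MD
open scoped CStarAlgebra ComplexOrder

theorem cut_eq' {B : Type} [CStarAlgebra B] (a : B) {ε : ℝ} (hε : 0 ≤ ε) :
    cut ε a = cfc (fun x : ℝ => max (x - ε) 0) a := by
  unfold cut
  exact cfcₙ_eq_cfc (by fun_prop) (by simp [hε])

theorem s_PPW : S_PPW := by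
  intro hSPL X _ _ _ _ B _ n ι u e E hM b ε Λ x hε hb hx hx'
  obtain ⟨hmul, hWmul, hstar, hWstar, hlin, hcfc, hshift, hW1, hιs, hWι, hbd, hcont, hWlin, hWpos⟩ :=
    hSPL X B n ι u e E hM
  have hW0 : W u E (0 : B) Λ x = 0 := by
    have h := hWlin Λ x 0 0 1
    simpa using h
  have hpos : ∀ f : ℝ → ℝ, Continuous f → (∀ t, 0 ≤ f t) → (W u E (cfc f b) Λ x).PosSemidef := by
    intro f hf hf0
    have h1 : cfc f b = star (cfc (fun t => Real.sqrt (f t)) b) *
        cfc (fun t => Real.sqrt (f t)) b := by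
      have h2 : star (cfc (fun t => Real.sqrt (f t)) b) = cfc (fun t => Real.sqrt (f t)) b :=
        (cfc_predicate (fun t => Real.sqrt (f t)) b : IsSelfAdjoint _).star_eq
      rw [h2, ← cfc_mul (fun t => Real.sqrt (f t)) (fun t => Real.sqrt (f t)) b
        (hf.sqrt.continuousOn) (hf.sqrt.continuousOn)]
      congr 1
      ext t
      exact (Real.mul_self_sqrt (hf0 t)).symm
    rw [h1]
    exact hWpos Λ x _
  have cY : Continuous fun t : ℝ => max (t - ε) 0 := by fun_prop
  have cZ : Continuous fun t : ℝ => max (ε - t) 0 := by fun_prop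
  have hsplit : ∀ y, SplitAt u E b y → SplitAt u E (cut ε b) y := by
    intro y hy
    rw [cut_eq' b hε]
    exact hcfc y b _ cY hb hy
  have key : W u E (cut ε b) Λ x - (W u E b Λ x -
      (ε : ℂ) • (1 : Matrix (Fin n × Fin Λ) (Fin n × Fin Λ) ℂ)) =
      W u E (cfc (fun t : ℝ => max (ε - t) 0) b) Λ x := by
    have h1 : (ε : ℂ) • (1 : B) + cut ε b = (1 : ℂ) • cfc (fun t : ℝ => max (ε - t) 0) b + b := by
      rw [one_smul, cut_eq' b hε]
      have h2 : (ε : ℂ) • (1 : B) = cfc (fun _ : ℝ => ε) b := by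
        rw [cfc_const ε b, Algebra.algebraMap_eq_smul_one]
        exact Complex.coe_smul ε 1
      have h3 : cfc (fun t : ℝ => max (ε - t) 0) b + b =
          cfc (fun t : ℝ => max (ε - t) 0 + t) b := by
        rw [cfc_add b (fun t : ℝ => max (ε - t) 0) (fun t : ℝ => t) cZ.continuousOn
          (by fun_prop), cfc_id' ℝ b]
      rw [h2, ← cfc_add b (fun _ : ℝ => ε) (fun t : ℝ => max (t - ε) 0) (by fun_prop)
        cY.continuousOn]
      rw [h3]
      congr 1
      ext t
      rcases le_total t ε with h | h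
      · rw [max_eq_right (by linarith), max_eq_left (by linarith)]; ring
      · rw [max_eq_left (by linarith), max_eq_right (by linarith)]; ring
    have h4 := congrArg (fun y => W u E y Λ x) h1
    simp only [hWlin, hW1] at h4
    rw [one_smul] at h4
    rw [eq_comm, ← sub_eq_zero] at h4 ⊢
    rw [← h4]
    abel
  refine ⟨⟨?_, ?_, ?_⟩, hsplit x hx⟩
  · rw [cut_eq' b hε]
    exact hpos _ cY (fun t => le_max_right _ _)
  · rw [key]
    exact hpos _ cZ (fun t => le_max_right _ _)
  · rw [key, ← hWmul x _ _ Λ (hsplit x hx) (hsplit _ hx'), cut_eq' b hε,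
      ← cfc_mul (fun t : ℝ => max (t - ε) 0) (fun t : ℝ => max (ε - t) 0) b cY.continuousOn
        cZ.continuousOn]
    have h5 : (fun t : ℝ => max (t - ε) 0 * max (ε - t) 0) = fun _ => 0 := by
      ext t
      rcases le_total t ε with h | h
      · rw [max_eq_right (by linarith : t - ε ≤ 0), zero_mul]
      · rw [max_eq_right (by linarith : ε - t ≤ 0), mul_zero]
    rw [h5, cfc_const_zero]
    exact hW0

end Pool.Agent.H980.MD
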